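import Mathlib.Analysis.Complex.Basic
import Mathlib.Algebra.BigOperators.Group.Finset.Powerset
import Mathlib.Algebra.Order.BigOperators.Ring.Finset
import Mathlib.Tactic.GCongr
import Mathlib.Tactic.Positivity
import Mathlib.Tactic.FieldSimp
import Mathlib.Tactic.Linarith

/-! The weighted rank generating sum: an induction on the ground set. -/

namespace Pool.Agent.MP_e19463_co.W

open Finset

variable {ι : Type*} [DecidableEq ι]

/-- The weighted sum over subsets `X` of `S` of `w ^ r (X ∪ F)`. -/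
noncomputable def Zw (r : Finset ι → ℕ) (v : ι → ℂ) (w : ℂ) (S F : Finset ι) : ℂ :=
  ∑ X ∈ S.powerset, (∏ e ∈ X, v e) * w ^ r (X ∪ F)

variable {r : Finset ι → ℕ} {v : ι → ℂ} {w : ℂ}

theorem Zw_insert {S : Finset ι} (F : Finset ι) {e : ι} (he : e ∉ S) :
    Zw r v w (insert e S) F = Zw r v w S F + v e * Zw r v w S (insert e F) := by
  unfold Zw
  rw [sum_powerset_insert he, mul_sum]
  congr 1
  refine sum_congr rfl fun X hX => ?_
  rw [prod_insert fun h => he (mem_powerset.1 hX h), insert_union, union_insert, mul_assoc]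

theorem peel {x B : ℝ} (hx : 0 ≤ x) (hB : 0 ≤ B) (hspan : ∀ (F : Finset ι) (e : ι),
    r (insert e F) = r F + 1 ∨ ∀ X : Finset ι, r (X ∪ insert e F) = r (X ∪ F))
    (S N : Finset ι) : Disjoint S N → ∀ F : Finset ι,
      (∀ Y ⊆ N, ‖Zw r v w S (F ∪ Y)‖ ≤ B * x ^ r (F ∪ Y)) → ‖Zw r v w (S ∪ N) F‖ ≤
        (∏ e ∈ N, max 1 ‖1 + v e‖ * (1 + ‖v e‖ * x)) * (B * x ^ r F) := by
  induction N using Finset.induction_on with
  | empty => intro _ F h; simpa using h ∅ (empty_subset _)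
  | insert e N heN ih =>
    intro hd F h
    have hd' : Disjoint S N := hd.mono_right (subset_insert _ _)
    have heS : e ∉ S := fun hS => disjoint_left.1 hd hS (mem_insert_self _ _)
    have a1 := ih hd' F fun Y hY => h Y (hY.trans (subset_insert _ _))
    rw [union_insert, Zw_insert F (by simp [heS, heN]), prod_insert heN]
    set P := ∏ e ∈ N, max 1 ‖1 + v e‖ * (1 + ‖v e‖ * x)
    have hP : 0 ≤ P * (B * x ^ r F) := (norm_nonneg _).trans a1
    have h1 : 1 ≤ 1 + ‖v e‖ * x := le_add_of_nonneg_right (by positivity)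
    rw [mul_assoc]
    rcases hspan F e with h2 | h2
    · have a2 := ih hd' (insert e F) fun Y hY => by
        have := h (insert e Y) (insert_subset_insert _ hY)
        rwa [union_insert, ← insert_union] at this
      rw [h2] at a2
      calc _ ≤ ‖Zw r v w (S ∪ N) F‖ + ‖v e‖ * ‖Zw r v w (S ∪ N) (insert e F)‖ :=
            (norm_add_le _ _).trans_eq (by rw [norm_mul])
        _ ≤ P * (B * x ^ r F) + ‖v e‖ * (P * (B * x ^ (r F + 1))) := by gcongr
        _ = 1 * (1 + ‖v e‖ * x) * (P * (B * x ^ r F)) := by ring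
        _ ≤ _ := by gcongr; exact le_max_left _ _
    · have e1 : Zw r v w (S ∪ N) (insert e F) = Zw r v w (S ∪ N) F :=
        sum_congr rfl fun X _ => by rw [h2 X]
      rw [e1, ← one_add_mul, norm_mul]
      calc _ ≤ max 1 ‖1 + v e‖ * 1 * (P * (B * x ^ r F)) := by
            rw [mul_one]; gcongr; exact le_max_right _ _
        _ ≤ _ := by gcongr

theorem chain {x : ℝ} (S N : Finset ι) : Disjoint S N → (∀ e ∈ N, ‖v e‖ * x ≤ 1) →
    (∀ T e, T ⊆ S ∪ N → e ∈ T → (1 - ‖v e‖ * x) * ‖Zw r v w (T.erase e) ∅‖ ≤ ‖Zw r v w T ∅‖) →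
    (∏ e ∈ N, (1 - ‖v e‖ * x)) * ‖Zw r v w S ∅‖ ≤ ‖Zw r v w (S ∪ N) ∅‖ := by
  induction N using Finset.induction_on with
  | empty => intro _ _ _; simp
  | insert e N heN ih =>
    intro hd hx h
    have heS : e ∉ S := fun hS => disjoint_left.1 hd hS (mem_insert_self _ _)
    have a1 := ih (hd.mono_right (subset_insert _ _)) (fun a ha => hx a (mem_insert_of_mem ha))
      fun T e' hT he' => h T e' (hT.trans (union_subset_union_right (subset_insert _ _))) he'
    have a2 := h (S ∪ insert e N) e subset_rfl (by simp)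
    rw [union_insert, erase_insert (by simp [heS, heN])] at a2
    rw [prod_insert heN, union_insert, mul_assoc]
    exact (mul_le_mul_of_nonneg_left a1 (sub_nonneg.2 (hx e (mem_insert_self _ _)))).trans a2

theorem main_induction (δ : Finset ι → Finset ι → ℕ) (E : Finset ι) {x K : ℝ} (hK : 1 ≤ K)
    (hx1 : ∀ e ∈ E, ‖v e‖ * x ≤ 1) (hwx : ‖w‖ * K = x) (hspan : ∀ (F : Finset ι) (e : ι),
      r (insert e F) = r F + 1 ∨ ∀ X : Finset ι, r (X ∪ insert e F) = r (X ∪ F))
    (hsingle : ∀ e ∈ E, r {e} = 1) (hδle : ∀ S F, δ S F ≤ r F)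
    (h0 : ∀ S ⊆ E, ∀ F, δ S F = 0 → ∀ X ⊆ S, r (X ∪ F) = r X + r F)
    (h1 : ∀ S ⊆ E, ∀ F, 0 < δ S F → ∃ N ⊆ S, N.Nonempty ∧
      ∏ e ∈ N, max 1 ‖1 + v e‖ * (1 + ‖v e‖ * x) ≤ K * ∏ e ∈ N, (1 - ‖v e‖ * x) ∧
      ∀ Y, δ (S \ N) (F ∪ Y) + r F + 1 ≤ δ S F + r (F ∪ Y)) (S : Finset ι) : S ⊆ E →
    (∀ e ∈ S, (1 - ‖v e‖ * x) * ‖Zw r v w (S.erase e) ∅‖ ≤ ‖Zw r v w S ∅‖) ∧
    ∀ F, ‖Zw r v w S F‖ ≤ ‖w‖ ^ r F * K ^ δ S F * ‖Zw r v w S ∅‖ := by
  have hK0 : 0 < K := by linarith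
  have hx0 : 0 ≤ x := by rw [← hwx]; positivity
  induction S using Finset.strongInduction with
  | H S ih =>
  intro hS
  have part1 : ∀ e ∈ S, (1 - ‖v e‖ * x) * ‖Zw r v w (S.erase e) ∅‖ ≤ ‖Zw r v w S ∅‖ := by
    intro e he
    have a := (ih _ (erase_ssubset he) ((erase_subset _ _).trans hS)).2 {e}
    have hz := Zw_insert (r := r) (v := v) (w := w) ∅ (notMem_erase e S)
    rw [insert_erase he, insert_empty] at hz
    have hδ : K ^ δ (S.erase e) {e} ≤ K := by
      simpa using pow_le_pow_right₀ hK ((hδle (S.erase e) {e}).trans_eq (hsingle e (hS he)))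
    rw [hsingle e (hS he), pow_one] at a
    have b : ‖v e * Zw r v w (S.erase e) {e}‖ ≤ ‖v e‖ * (x * ‖Zw r v w (S.erase e) ∅‖) := by
      rw [norm_mul, ← hwx]
      gcongr
      exact a.trans (by gcongr)
    have c := norm_sub_le (Zw r v w S ∅) (v e * Zw r v w (S.erase e) {e})
    rw [hz, add_sub_cancel_right, ← hz] at c
    linarith
  refine ⟨part1, fun F => ?_⟩
  rcases Nat.eq_zero_or_pos (δ S F) with hz | hpos
  · have : Zw r v w S F = w ^ r F * Zw r v w S ∅ := by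
      unfold Zw
      rw [mul_sum]
      refine sum_congr rfl fun X hX => ?_
      rw [h0 S hS F hz X (mem_powerset.1 hX), union_empty, pow_add]
      ring
    rw [this, hz, norm_mul, norm_pow]
    simp
  · obtain ⟨N, hNS, hNne, c, hN⟩ := h1 S hS F hpos
    have hlt : S \ N ⊂ S := sdiff_ssubset hNS hNne
    have hun : S \ N ∪ N = S := sdiff_union_of_subset hNS
    set z := ‖Zw r v w (S \ N) ∅‖ with hz
    have hz0 : 0 ≤ z := norm_nonneg _
    set B : ℝ := K ^ δ S F / K ^ (r F + 1) * z with hB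
    have a := peel (v := v) (w := w) hx0 (by positivity : 0 ≤ B) hspan (S \ N) N sdiff_disjoint F
      fun Y _ => by
        refine ((ih _ hlt (sdiff_subset.trans hS)).2 (F ∪ Y)).trans ?_
        have hk' : K ^ δ (S \ N) (F ∪ Y) ≤ K ^ δ S F / K ^ (r F + 1) * K ^ r (F ∪ Y) := by
          rw [div_mul_eq_mul_div, le_div_iff₀ (by positivity), ← pow_add, ← pow_add, ← add_assoc]
          exact pow_le_pow_right₀ hK (hN Y)
        rw [← hz, hB, ← hwx, mul_pow]
        calc ‖w‖ ^ r (F ∪ Y) * K ^ δ (S \ N) (F ∪ Y) * z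
            ≤ ‖w‖ ^ r (F ∪ Y) * (K ^ δ S F / K ^ (r F + 1) * K ^ r (F ∪ Y)) * z := by gcongr
          _ = _ := by ring
    have b := chain (r := r) (w := w) (S \ N) N sdiff_disjoint (fun e he => hx1 e (hS (hNS he)))
      fun T e hT he => by
        rw [hun] at hT
        rcases hT.eq_or_ssubset with rfl | hT'
        · exact part1 e he
        · exact (ih T hT' (hT.trans hS)).1 e he
    rw [hun] at a b
    refine a.trans ?_
    have e1 : B * x ^ r F = ‖w‖ ^ r F * K ^ δ S F / K * z := by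
      rw [hB, ← hwx, mul_pow, pow_succ]
      field_simp
    rw [e1]
    calc _ ≤ (K * ∏ e ∈ N, (1 - ‖v e‖ * x)) * (‖w‖ ^ r F * K ^ δ S F / K * z) := by gcongr
      _ = ‖w‖ ^ r F * K ^ δ S F * ((∏ e ∈ N, (1 - ‖v e‖ * x)) * z) := by
        generalize ∏ e ∈ N, (1 - ‖v e‖ * x) = P
        field_simp
      _ ≤ _ := by gcongr

omit [DecidableEq ι] in
theorem prod_ratio (a : ι → ℝ) (N : Finset ι) (h0 : ∀ e, 0 ≤ a e) : ∑ e ∈ N, a e ≤ 1 →
    (∏ e ∈ N, (1 + a e)) * (1 - ∑ e ∈ N, a e) ≤ (1 + ∑ e ∈ N, a e) * ∏ e ∈ N, (1 - a e) := by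
  classical
  induction N using Finset.induction_on with
  | empty => simp
  | insert e N he ih =>
    rw [sum_insert he, prod_insert he, prod_insert he]
    intro h
    have hs : 0 ≤ ∑ e ∈ N, a e := sum_nonneg fun e _ => h0 e
    have he0 := h0 e
    have ih' := ih (by linarith)
    have hP : 0 ≤ ∏ e ∈ N, (1 + a e) := prod_nonneg fun e _ => by linarith [h0 e]
    have hQ : 0 ≤ ∏ e ∈ N, (1 - a e) := prod_nonneg fun f hf => by
      linarith [single_le_sum (fun e _ => h0 e) hf]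
    generalize ∑ e ∈ N, a e = s, ∏ e ∈ N, (1 + a e) = P, ∏ e ∈ N, (1 - a e) = Q, a e = t at *
    have h1 : (1 + t) * (1 - (t + s)) * (1 + s) ≤ (1 + (t + s)) * (1 - t) * (1 - s) := by
      nlinarith [mul_nonneg (mul_nonneg he0 hs) (add_nonneg he0 hs)]
    refine le_of_mul_le_mul_right ?_ (by linarith : 0 < 1 + s)
    have h2 : 0 ≤ (1 + (t + s)) * (1 - t) := mul_nonneg (by linarith) (by linarith)
    calc _ = (1 + t) * (1 - (t + s)) * (1 + s) * P := by ring
      _ ≤ (1 + (t + s)) * (1 - t) * (1 - s) * P := by gcongr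
      _ = (1 + (t + s)) * (1 - t) * (P * (1 - s)) := by ring
      _ ≤ (1 + (t + s)) * (1 - t) * ((1 + s) * Q) := by gcongr
      _ = _ := by ring

end Pool.Agent.MP_e19463_co.W
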