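import Mathlib.Combinatorics.Matroid.Rank.ENat
import Mathlib.Analysis.SpecialFunctions.Sqrt
import Pool.Agent.MP_e19463_co.W.Induct

/-! Zero-free region for the weighted rank generating sum of a matroid. -/

namespace Pool.Agent.MP_e19463_co.W

open Finset

variable {α : Type*} [DecidableEq α] {M : Matroid α}

/-- The rank of a finite set. -/
noncomputable def rk (M : Matroid α) (X : Finset α) : ℕ := (M.eRk X).toNat

omit [DecidableEq α] in
theorem cast_rk (X : Finset α) : (rk M X : ℕ∞) = M.eRk X :=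
  ENat.natCast_toNat ((M.eRk_le_encard X).trans_lt X.finite_toSet.encard_lt_top).ne

omit [DecidableEq α] in
theorem rk_mono {X Y : Finset α} (h : X ⊆ Y) : rk M X ≤ rk M Y := by
  rw [← Nat.cast_le (α := ℕ∞), cast_rk, cast_rk]
  exact M.eRk_mono h

theorem rk_submod {X Y : Finset α} (Z : Finset α) (hX : Z ⊆ X) (hY : Z ⊆ Y) :
    rk M Z + rk M (X ∪ Y) ≤ rk M X + rk M Y := by
  refine (Nat.add_le_add_right (rk_mono (subset_inter hX hY)) _).trans ?_
  rw [← Nat.cast_le (α := ℕ∞)]
  push_cast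
  simp only [cast_rk, coe_inter, coe_union]
  exact M.eRk_inter_add_eRk_union_le _ _

omit [DecidableEq α] in
theorem rk_indep {X : Finset α} (h : M.Indep X) : rk M X = X.card := by
  rw [rk, h.eRk_eq_encard, Set.encard_coe_eq_coe_finsetCard, ENat.toNat_natCast]

theorem rk_closure {X J : Finset α} (h : (X : Set α) ⊆ M.closure J) : rk M (X ∪ J) = rk M J := by
  refine le_antisymm ?_ (rk_mono subset_union_right)
  rw [← Nat.cast_le (α := ℕ∞), cast_rk, cast_rk, coe_union, ← M.eRk_union_closure_right_eq,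
    Set.union_eq_right.2 h, M.eRk_closure_eq]

theorem rk_span (F : Finset α) (e : α) :
    rk M (insert e F) = rk M F + 1 ∨ ∀ X : Finset α, rk M (X ∪ insert e F) = rk M (X ∪ F) := by
  by_cases h : e ∈ M.E \ M.closure F
  · left
    rw [← Nat.cast_inj (R := ℕ∞)]
    push_cast
    rw [cast_rk, cast_rk, coe_insert, Matroid.eRk_insert_eq_add_one h]
  · refine Or.inr fun X => ?_
    rw [union_insert]
    by_cases he : e ∈ M.E
    · exact rk_closure (X := {e}) (by
        simpa using M.closure_subset_closure (by simp) (not_not.1 fun h' => h ⟨he, h'⟩))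
    · rw [rk, coe_insert, Matroid.eRk_insert_of_notMem_ground _ he, rk]

theorem mem_closure_sdiff {B : Finset α} (hB : M.IsBase B) {e : α} (he : e ∈ M.E)
    (T : Finset α) : (∀ b ∈ T, e ∈ M.closure (B \ {b})) → e ∈ M.closure (B \ T : Finset α) := by
  induction T using Finset.induction_on with
  | empty => intro _; simpa [hB.closure_eq]
  | insert b T _ ih =>
    intro h
    have e1 : ((B \ insert b T : Finset α) : Set α) =
        ((B \ T : Finset α) : Set α) ∩ ((B : Set α) \ {b}) := by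
      ext a; simp; tauto
    rw [e1, (hB.indep.subset (Set.union_subset (by simp) Set.sdiff_subset)).closure_inter_eq_inter_closure]
    exact ⟨ih fun a ha => h a (mem_insert_of_mem ha), h b (mem_insert_self _ _)⟩

theorem exists_drop {F J : Finset α} (h : rk M (F ∪ J) < rk M F + J.card) :
    ∃ b ∈ J, rk M (F ∪ J) ≤ rk M (F ∪ J.erase b) := by
  by_contra hc
  push Not at hc
  have : ∀ T ⊆ J, rk M (F ∪ J \ T) + T.card ≤ rk M (F ∪ J) := by
    intro T
    induction T using Finset.induction_on with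
    | empty => simp
    | insert b T hb ih =>
      intro hT
      have h1 := ih ((subset_insert _ _).trans hT)
      have h2 := hc b (hT (mem_insert_self _ _))
      have h3 := rk_submod (M := M) (X := F ∪ J \ T) (Y := F ∪ J.erase b) (F ∪ J \ insert b T)
        (union_subset_union_right (sdiff_subset_sdiff subset_rfl (subset_insert _ _)))
        (union_subset_union_right fun a ha => by simp at ha ⊢; tauto)
      have h4 := rk_mono (M := M) (show F ∪ J ⊆ F ∪ J \ T ∪ (F ∪ J.erase b) from fun a ha => by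
        by_cases e : a = b <;> simp [e] at ha ⊢ <;> tauto)
      rw [card_insert_of_notMem hb]
      omega
  have := this J subset_rfl
  rw [sdiff_self, bot_eq_empty, union_empty] at this
  omega

open Classical in
theorem Zw_ne_zero {B E : Finset α} (hB : M.IsBase B) (hE : ∀ e ∈ E, M.IsNonloop e) {v : α → ℂ}
    {Λ Ψ : ℝ} (hΛ : ∀ b ∈ B, ∑ e ∈ E with e ∉ M.closure (B \ {b}), ‖v e‖ ≤ Λ)
    (hΨ : ∀ b ∈ B, ∏ e ∈ E with e ∉ M.closure (B \ {b}), max 1 ‖1 + v e‖ ≤ Ψ) (hΨ1 : 1 ≤ Ψ)
    {w : ℂ} (hw : ‖w‖ * ((3 + 2 * √2) * Ψ * Λ) ≤ 1) : Zw (rk M) v w E ∅ ≠ 0 := by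
  set J : Finset α → Finset α := fun S => B.filter fun b => ∃ e ∈ S, e ∉ M.closure (B \ {b})
    with hJ
  have hcl : ∀ S ⊆ E, (S : Set α) ⊆ M.closure (J S) := fun S hS e he => by
    have := mem_closure_sdiff hB (hE e (hS he)).mem_ground (B \ J S) fun b hb =>
      by_contra fun h => (mem_sdiff.1 hb).2 (mem_filter.2 ⟨(mem_sdiff.1 hb).1, e, he, h⟩)
    rwa [Finset.sdiff_sdiff_eq_self (filter_subset _ _)] at this
  have hJi : ∀ T ⊆ B, rk M T = T.card := fun T hT => rk_indep (hB.indep.subset hT)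
  have s2 : √2 * √2 = 2 := Real.mul_self_sqrt (by norm_num)
  have s1 : 1 < √2 := by nlinarith [Real.sqrt_nonneg 2]
  have s3 : √2 < 2 := by nlinarith
  set K := Ψ * (1 + √2) with hK
  have hK1 : 1 ≤ K := by nlinarith
  set x := ‖w‖ * K with hx
  have hx0 : 0 ≤ x := by positivity
  have hA : Λ * x ≤ √2 - 1 := by
    refine le_of_mul_le_mul_right ?_ (by linarith : 0 < 1 + √2)
    calc _ = ‖w‖ * ((1 + 2 * √2 + √2 * √2) * Ψ * Λ) := by rw [hx, hK]; ring
      _ ≤ 1 := by rw [s2]; convert hw using 4; ring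
      _ = _ := by nlinarith
  have hsum : ∀ b ∈ B, ∀ N ⊆ E.filter fun e => e ∉ M.closure (B \ {b}),
      ∑ e ∈ N, ‖v e‖ * x ≤ √2 - 1 := fun b hb N hN => by
    rw [← sum_mul]
    exact (mul_le_mul_of_nonneg_right ((sum_le_sum_of_subset_of_nonneg hN
      fun _ _ _ => norm_nonneg _).trans (hΛ b hb)) hx0).trans hA
  have hx1 : ∀ e ∈ E, ‖v e‖ * x < 1 := fun e he => by
    obtain ⟨b, hb⟩ : (J {e}).Nonempty := nonempty_iff_ne_empty.2 fun h => by
      have := hcl {e} (by simpa) (mem_singleton_self e)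
      rw [h, coe_empty] at this
      exact (hE e he).not_isLoop this
    obtain ⟨h1, f, h2, h3⟩ := mem_filter.1 hb
    have := hsum b h1 {e} (singleton_subset_iff.2 (mem_filter.2 ⟨he, mem_singleton.1 h2 ▸ h3⟩))
    rw [sum_singleton] at this
    linarith
  have main := main_induction (r := rk M) (v := v) (w := w)
    (fun S F => rk M F + rk M (J S) - rk M (F ∪ J S)) E hK1 (fun e he => (hx1 e he).le) rfl rk_span
    (fun e he => by rw [rk, coe_singleton, (hE e he).eRk_eq]; rfl)
    (fun S F => by have := rk_mono (M := M) (subset_union_right (s₁ := F) (s₂ := J S)); omega)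
    (fun S hS F h X hX => ?_) fun S hS F h => ?_
  · have b := chain (r := rk M) (w := w) ∅ E (by simp) (fun e he => (hx1 e he).le)
      fun T e hT he => (main T (by simpa using hT)).1 e he
    have hz : Zw (rk M) v w ∅ ∅ = 1 := by simp [Zw, rk]
    rw [hz, empty_union, norm_one, mul_one] at b
    intro h
    rw [h, norm_zero] at b
    exact absurd b (not_le.2 (prod_pos fun e he => sub_pos.2 (hx1 e he)))
  · have h1 := rk_submod (M := M) (X := X) (Y := F) ∅ (empty_subset _) (empty_subset _)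
    have h2 := rk_submod (M := M) (X := X ∪ F) (Y := X ∪ J S) X subset_union_left subset_union_left
    have h3 := rk_closure ((coe_subset.2 hX).trans (hcl S hS))
    have h4 := rk_mono (M := M) (show F ∪ J S ⊆ X ∪ F ∪ (X ∪ J S) from
      union_subset_union subset_union_right subset_union_right)
    omega
  · have hJB : J S ⊆ B := filter_subset _ _
    obtain ⟨b, hb, h1⟩ := exists_drop (M := M) (F := F) (J := J S) (by rw [← hJi _ hJB]; omega)
    obtain ⟨hbB, f, hf, hf'⟩ := mem_filter.1 hb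
    set N := S.filter fun e => e ∉ M.closure (B \ {b}) with hN
    have hNE : N ⊆ E.filter fun e => e ∉ M.closure (B \ {b}) := filter_subset_filter _ hS
    refine ⟨N, filter_subset _ _, ⟨f, mem_filter.2 ⟨hf, hf'⟩⟩, ?_, fun Y => ?_⟩
    · have h2 := hsum b hbB N hNE
      have h3 := prod_ratio (fun e => ‖v e‖ * x) N (fun e => by positivity) (by linarith)
      have h4 : ∏ e ∈ N, max 1 ‖1 + v e‖ ≤ Ψ := (prod_le_prod_of_subset_of_one_le hNE
        (fun _ _ => by positivity) fun _ _ _ => le_max_left _ _).trans (hΨ b hbB)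
      have h5 : 0 ≤ ∑ e ∈ N, ‖v e‖ * x := by positivity
      have h6 : 0 ≤ ∏ e ∈ N, (1 - ‖v e‖ * x) := prod_nonneg fun e he =>
        sub_nonneg.2 (hx1 e (hS (filter_subset _ _ he))).le
      have h7 : 0 ≤ ∏ e ∈ N, (1 + ‖v e‖ * x) := by positivity
      rw [prod_mul_distrib, hK, mul_assoc]
      refine mul_le_mul h4 ?_ h7 (by linarith)
      generalize ∑ e ∈ N, ‖v e‖ * x = s, ∏ e ∈ N, (1 + ‖v e‖ * x) = P,
        ∏ e ∈ N, (1 - ‖v e‖ * x) = Q at *
      refine le_of_mul_le_mul_right (h3.trans ?_) (by linarith : 0 < 1 - s)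
      rw [mul_right_comm]
      exact mul_le_mul_of_nonneg_right (by nlinarith) h6
    · have h2 : J (S \ N) ⊆ (J S).erase b := fun c hc => by
        obtain ⟨c1, e, c2, c3⟩ := mem_filter.1 hc
        obtain ⟨c4, c5⟩ := mem_sdiff.1 c2
        exact mem_erase.2 ⟨fun h => c5 (mem_filter.2 ⟨c4, h ▸ c3⟩), mem_filter.2 ⟨c1, e, c4, c3⟩⟩
      have h3 := rk_submod (M := M) (X := F ∪ J (S \ N)) (Y := (J S).erase b) _
        subset_union_right h2
      rw [union_assoc, union_eq_right.2 h2] at h3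
      have h4 := hJi _ ((erase_subset b _).trans hJB)
      have h5 := hJi _ hJB
      have h6 := card_erase_add_one hb
      have h7 := rk_mono (M := M) (show F ∪ J (S \ N) ⊆ F ∪ Y ∪ J (S \ N) from
        union_subset_union_left subset_union_left)
      have h8 := rk_submod (M := M) (X := F ∪ Y) (Y := J (S \ N)) ∅ (empty_subset _)
        (empty_subset _)
      omega

open Classical in
theorem root_bound {B E : Finset α} (hB : M.IsBase B) (hE : ∀ e ∈ E, M.IsNonloop e) {v : α → ℂ}
    {Λ Ψ : ℝ} (hΛ : ∀ b ∈ B, ∑ e ∈ E with e ∉ M.closure (B \ {b}), ‖v e‖ ≤ Λ)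
    (hΨ : ∀ b ∈ B, ∏ e ∈ E with e ∉ M.closure (B \ {b}), max 1 ‖1 + v e‖ ≤ Ψ) {q : ℂ}
    (hq : ∑ X ∈ E.powerset, (∏ e ∈ X, v e) * q ^ (rk M E - rk M X) = 0) :
    ‖q‖ ≤ (3 + 2 * √2) * Ψ * Λ := by
  obtain ⟨b, hb⟩ : B.Nonempty := nonempty_iff_ne_empty.2 fun h => by
    obtain rfl : E = ∅ := eq_empty_of_forall_notMem fun e he => (hE e he).not_isLoop (by
      have := (hE e he).mem_ground
      rwa [← hB.closure_eq, h, coe_empty] at this)
    simp at hq
  have h1 : 1 ≤ Ψ := (one_le_prod fun _ _ => le_max_left _ _).trans (hΨ b hb)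
  have h2 : 0 ≤ Λ := (sum_nonneg fun _ _ => norm_nonneg _).trans (hΛ b hb)
  by_contra hc
  push Not at hc
  have h3 : 0 < ‖q‖ := lt_of_le_of_lt (by positivity) hc
  have h4 : q ≠ 0 := norm_pos_iff.1 h3
  refine Zw_ne_zero hB hE hΛ hΨ h1 (w := q⁻¹) (by
    rw [norm_inv, inv_mul_le_iff₀ h3, mul_one]; exact hc.le) ?_
  refine mul_left_cancel₀ (pow_ne_zero (rk M E) h4) ?_
  rw [mul_zero, ← hq, Zw, mul_sum]
  refine sum_congr rfl fun X hX => ?_
  rw [union_empty, pow_sub₀ _ h4 (rk_mono (mem_powerset.1 hX)), inv_pow]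
  ring

end Pool.Agent.MP_e19463_co.W
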